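import Pool.Agent.L7h47.DF.Fin
import Pool.Agent.L7h47.DF.End
import Pool.Agent.L7h34.DF.Par
import Pool.Agent.L7h55.DF.Frob
import Pool.Agent.L7h53.DF.Ssq
import Pool.Agent.L7h36.DF.Shf
import Pool.Agent.L7h99.DF.QUO
import Pool.Agent.L7h38.DF.Chr
import Pool.Agent.L7h30.DF.Exc
import Pool.Agent.L7h52.DF.Res
import Pool.Agent.L7h72.DF.Div
import Pool.Agent.L7h89.DF.Crt

/-!
# Abelian difference sets with a fixed lambda have density zero
-/

set_option autoImplicit false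

namespace Pool.Agent.Results.MP_0820eb_co.DensityZero

open Filter Topology

/-- `D` is a `(v, k, lam)` difference set in the finite abelian group `G`, written additively. -/
def IsDifferenceSet (G : Type) [AddCommGroup G] [Fintype G] [DecidableEq G] (v k lam : ℕ)
    (D : Finset G) : Prop :=
  Fintype.card G = v ∧ D.card = k ∧
    ∀ g : G, g ≠ 0 → ((D ×ˢ D).filter fun e => e.1 - e.2 = g).card = lam

/-- There is an abelian `(v, k, lam)` difference set. -/
def Realised (v k lam : ℕ) : Prop :=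
  ∃ (G : Type) (_ : AddCommGroup G) (_ : Fintype G) (_ : DecidableEq G) (D : Finset G),
    IsDifferenceSet G v k lam D

open Pool.Agent.L7h47.DF

lemma siz_iff (lam k : ℕ) : (∃ v, Realised v k lam) ↔ Siz lam k := by
  constructor
  · rintro ⟨v, G, i1, i2, i3, D, -, h⟩
    exact ⟨G, i1, i2, i3, D, h⟩
  · rintro ⟨G, i1, i2, i3, D, h⟩
    exact ⟨Fintype.card G, G, i1, i2, i3, D, rfl, h⟩

lemma ord_iff (lam v : ℕ) : (∃ k, Realised v k lam) ↔ Ord lam v := by
  constructor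
  · rintro ⟨k, G, i1, i2, i3, D, hv, h⟩
    exact ⟨k, G, i1, i2, i3, D, hv, h⟩
  · rintro ⟨k, G, i1, i2, i3, D, hv, h⟩
    exact ⟨k, G, i1, i2, i3, D, hv, h⟩

theorem exc : S_EXC := Pool.Agent.L7h30.DF.s_EXC Pool.Agent.L7h34.DF.s_PAR
  Pool.Agent.L7h55.DF.s_FROB (Pool.Agent.L7h53.DF.s_SSQ Pool.Agent.L7h34.DF.s_PAR)
  Pool.Agent.L7h36.DF.s_SHF Pool.Agent.L7h55.DF.s_ITR Pool.Agent.L7h99.DF.s_QUO
  Pool.Agent.L7h38.DF.s_CHR

theorem fin : S_FIN := s_FIN exc Pool.Agent.L7h52.DF.s_RES Pool.Agent.L7h72.DF.s_DIV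
  Pool.Agent.L7h89.DF.s_CRT

/-- For every `lam ≥ 1`: (1) the set of the sizes `k` of the abelian `(v, k, lam)` difference sets has
natural density zero; (2) the number of the `v ≤ X` for which there is an abelian `(v, k, lam)`
difference set is `o(√X)`. -/
theorem result : ∀ lam : ℕ, 1 ≤ lam →
    Tendsto (fun X : ℕ => (Nat.card {k : ℕ // k ≤ X ∧ ∃ v, Realised v k lam} : ℝ) / X) atTop
      (𝓝 0) ∧
    Tendsto (fun X : ℕ => (Nat.card {v : ℕ // v ≤ X ∧ ∃ k, Realised v k lam} : ℝ) / √(X : ℝ))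
      atTop (𝓝 0) := by
  intro lam hl
  simp only [siz_iff, ord_iff]
  exact ⟨tendsto_k fin lam hl, tendsto_v fin Pool.Agent.L7h34.DF.s_PAR lam hl⟩

end Pool.Agent.Results.MP_0820eb_co.DensityZero
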